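import Pool.Agent.Helper96.MP.DefsB

/-!
MERT: estimates of Mertens type.
-/

set_option autoImplicit false

namespace Pool.Agent.Helper96.MP

open Finset

/-- the completely multiplicative function `1 / n` -/
noncomputable def mert_f : ℕ →* ℝ where
  toFun n := (n : ℝ)⁻¹
  map_one' := by simp
  map_mul' a b := by simp [mul_comm]

lemma mert_f_apply (n : ℕ) : mert_f n = (n : ℝ)⁻¹ := rfl

lemma mert_harmonic (p : ℕ) (hp : 1 ≤ p) :
    Real.log p ≤ ∏ q ∈ Nat.primesBelow p, (1 - (q : ℝ)⁻¹)⁻¹ := by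
  have h := EulerProduct.summable_and_hasSum_smoothNumbers_prod_primesBelow_geometric
    (f := mert_f) (by
      intro q hq
      have h2 : (2 : ℝ) ≤ (q : ℝ) := by exact_mod_cast hq.two_le
      rw [mert_f_apply, Real.norm_eq_abs, abs_of_nonneg (by positivity)]
      exact inv_lt_one_of_one_lt₀ (by linarith)) p
  obtain ⟨hs, hsum⟩ := h
  have hprod : ∏ q ∈ Nat.primesBelow p, (1 - (q : ℝ)⁻¹)⁻¹ =
      ∑' m : p.smoothNumbers, mert_f m := by
    rw [hsum.tsum_eq]
    rfl
  rw [hprod]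
  have hmem : ∀ n ∈ Finset.Icc 1 (p - 1), n ∈ p.smoothNumbers := by
    intro n hn
    rw [Finset.mem_Icc] at hn
    exact Nat.mem_smoothNumbers_of_lt (by omega) (by omega)
  let e : {n // n ∈ Finset.Icc 1 (p - 1)} ↪ p.smoothNumbers :=
    ⟨fun n => ⟨n.1, hmem n.1 n.2⟩, by
      intro a b hab
      apply Subtype.ext
      exact congrArg (fun z : p.smoothNumbers => (z : ℕ)) hab⟩
  have h1 : ∑ m ∈ (Finset.Icc 1 (p - 1)).attach.map e, mert_f (m : ℕ) ≤
      ∑' m : p.smoothNumbers, mert_f m := by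
    apply hsum.summable.sum_le_tsum
    intro m _
    rw [mert_f_apply]
    positivity
  have h2 : ∑ m ∈ (Finset.Icc 1 (p - 1)).attach.map e, mert_f (m : ℕ) =
      ∑ n ∈ Finset.Icc 1 (p - 1), (n : ℝ)⁻¹ := by
    rw [Finset.sum_map]
    rw [← Finset.sum_attach (Finset.Icc 1 (p - 1)) (fun n => (n : ℝ)⁻¹)]
    rfl
  have h3 : Real.log p ≤ ∑ n ∈ Finset.Icc 1 (p - 1), (n : ℝ)⁻¹ := by
    have h4 := log_add_one_le_harmonic (p - 1)
    have h5 : ((p - 1 : ℕ) : ℝ) + 1 = p := by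
      have : (p - 1) + 1 = p := by omega
      exact_mod_cast this
    have h6 : ((harmonic (p - 1) : ℚ) : ℝ) = ∑ n ∈ Finset.Icc 1 (p - 1), (n : ℝ)⁻¹ := by
      rw [harmonic_eq_sum_Icc]
      push_cast
      rfl
    rw [h6] at h4
    calc Real.log p = Real.log (((p - 1 : ℕ) : ℝ) + 1) := by rw [h5]
      _ ≤ _ := by exact_mod_cast h4
  linarith

lemma mert_sq (n : ℕ) (hn : 1 ≤ n) :
    (1 : ℝ) / 2 ≤ ∏ q ∈ Nat.primesBelow (n + 1), (1 - ((q : ℝ) ^ 2)⁻¹) := by
  have h1 : ∏ k ∈ Finset.Icc 2 n, (1 - ((k : ℝ) ^ 2)⁻¹) = ((n : ℝ) + 1) / (2 * n) := by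
    induction n, hn using Nat.le_induction with
    | base => norm_num
    | succ n hn ih =>
      rw [Finset.prod_Icc_succ_top (by omega), ih]
      have : (0 : ℝ) < n := by exact_mod_cast hn
      push_cast
      field_simp
      ring
  have h2 : ∏ k ∈ Finset.Icc 2 n, (1 - ((k : ℝ) ^ 2)⁻¹) ≤
      ∏ q ∈ Nat.primesBelow (n + 1), (1 - ((q : ℝ) ^ 2)⁻¹) := by
    apply Finset.prod_le_prod_of_subset_of_le_one
    · intro q hq
      rw [Nat.mem_primesBelow] at hq
      rw [Finset.mem_Icc]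
      exact ⟨hq.2.two_le, by omega⟩
    · intro k hk
      rw [Finset.mem_Icc] at hk
      have h2 : (2 : ℝ) ≤ (k : ℝ) := by exact_mod_cast hk.1
      have : ((k : ℝ) ^ 2)⁻¹ ≤ 1 := inv_le_one_of_one_le₀ (by nlinarith)
      linarith
    · intro k _ _
      have : 0 ≤ ((k : ℝ) ^ 2)⁻¹ := by positivity
      linarith
  have h3 : (1 : ℝ) / 2 ≤ ((n : ℝ) + 1) / (2 * n) := by
    have : (0 : ℝ) < n := by exact_mod_cast hn
    rw [div_le_div_iff₀ (by norm_num) (by positivity)]
    linarith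
  linarith [h1 ▸ h2]

lemma mert_one (p : ℕ) (hp : p.Prime) :
    ∏ q ∈ Nat.primesBelow p, (1 - 1 / ((q : ℝ) + 1)) ≤ 2 / Real.log p := by
  have hp2 : (2 : ℝ) ≤ p := by exact_mod_cast hp.two_le
  have hlog : 0 < Real.log p := Real.log_pos (by linarith)
  have h1 := mert_harmonic p (by have := hp.two_le; omega)
  have h2 := mert_sq (p - 1) (by have := hp.two_le; omega)
  rw [show (p - 1) + 1 = p by have := hp.two_le; omega] at h2
  have h3 : (∏ q ∈ Nat.primesBelow p, (1 - 1 / ((q : ℝ) + 1))) *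
      (∏ q ∈ Nat.primesBelow p, (1 - (q : ℝ)⁻¹)⁻¹) *
      (∏ q ∈ Nat.primesBelow p, (1 - ((q : ℝ) ^ 2)⁻¹)) = 1 := by
    rw [← Finset.prod_mul_distrib, ← Finset.prod_mul_distrib]
    apply Finset.prod_eq_one
    intro q hq
    have h2 : (2 : ℝ) ≤ (q : ℝ) := by exact_mod_cast Nat.two_le_of_mem_primesBelow hq
    have h4 : (q : ℝ) ≠ 0 := by positivity
    have h5 : (q : ℝ) - 1 ≠ 0 := by
      intro h; linarith
    have h6 : (q : ℝ) + 1 ≠ 0 := by positivity
    have h7 : (1 - (q : ℝ)⁻¹)⁻¹ = q / (q - 1) := by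
      rw [inv_eq_iff_eq_inv, inv_div]
      field_simp
    rw [h7]
    field_simp
    ring
  set A := ∏ q ∈ Nat.primesBelow p, (1 - 1 / ((q : ℝ) + 1)) with hA
  set B := ∏ q ∈ Nat.primesBelow p, (1 - (q : ℝ)⁻¹)⁻¹ with hB
  set D := ∏ q ∈ Nat.primesBelow p, (1 - ((q : ℝ) ^ 2)⁻¹) with hD
  have hA0 : 0 ≤ A := by
    apply Finset.prod_nonneg
    intro q _
    have : 1 / ((q : ℝ) + 1) ≤ 1 := by
      rw [div_le_one (by positivity)]
      have : (0 : ℝ) ≤ q := by positivity
      linarith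
    linarith
  rw [le_div_iff₀ hlog]
  have hB0 : 0 < B := by linarith
  have h8 : A * Real.log p ≤ A * B := mul_le_mul_of_nonneg_left h1 hA0
  have h9 : A * B * (1 / 2) ≤ A * B * D :=
    mul_le_mul_of_nonneg_left h2 (mul_nonneg hA0 hB0.le)
  linarith

lemma mert_fact (n : ℕ) :
    ∑ q ∈ Nat.primesBelow (n + 1), ((n / q : ℕ) : ℝ) * Real.log q ≤ n * Real.log n := by
  have hdvd : ∏ q ∈ Nat.primesBelow (n + 1), q ^ (n / q) ∣ n.factorial := by
    apply Finset.prod_dvd_of_isRelPrime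
    · intro a ha b hb hab
      have ha' := Nat.prime_of_mem_primesBelow (Finset.mem_coe.1 ha)
      have hb' := Nat.prime_of_mem_primesBelow (Finset.mem_coe.1 hb)
      have : Nat.Coprime (a ^ (n / a)) (b ^ (n / b)) :=
        Nat.Coprime.pow _ _ ((Nat.coprime_primes ha' hb').2 hab)
      exact Nat.coprime_iff_isRelPrime.1 this
    · intro q hq
      have hq' := Nat.prime_of_mem_primesBelow hq
      rw [Nat.Prime.pow_dvd_factorial_iff hq' (b := Nat.log q n + 2) (by omega)]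
      calc n / q = n / q ^ 1 := by rw [pow_one]
        _ ≤ _ := Finset.single_le_sum (f := fun i => n / q ^ i) (fun _ _ => Nat.zero_le _)
          (Finset.mem_Ico.2 ⟨le_rfl, by omega⟩)
  have hle : (∏ q ∈ Nat.primesBelow (n + 1), q ^ (n / q)) ≤ n ^ n :=
    (Nat.le_of_dvd (Nat.factorial_pos n) hdvd).trans (Nat.factorial_le_pow n)
  have hpos : 0 < ∏ q ∈ Nat.primesBelow (n + 1), q ^ (n / q) :=
    Finset.prod_pos (fun q hq => pow_pos (Nat.prime_of_mem_primesBelow hq).pos _)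
  have hlog : Real.log ((∏ q ∈ Nat.primesBelow (n + 1), q ^ (n / q) : ℕ) : ℝ) ≤
      Real.log ((n ^ n : ℕ) : ℝ) :=
    Real.log_le_log (by exact_mod_cast hpos) (by exact_mod_cast hle)
  have h1 : Real.log ((∏ q ∈ Nat.primesBelow (n + 1), q ^ (n / q) : ℕ) : ℝ) =
      ∑ q ∈ Nat.primesBelow (n + 1), ((n / q : ℕ) : ℝ) * Real.log q := by
    push_cast
    rw [Real.log_prod]
    · apply Finset.sum_congr rfl
      intro q _
      rw [Real.log_pow]
    · intro q hq
      have := (Nat.prime_of_mem_primesBelow hq).pos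
      positivity
  have h2 : Real.log ((n ^ n : ℕ) : ℝ) = n * Real.log n := by
    push_cast
    rw [Real.log_pow]
  rw [h1, h2] at hlog
  exact hlog

lemma mert_theta (n : ℕ) :
    ∑ q ∈ Nat.primesBelow (n + 1), Real.log q ≤ Real.log 4 * n := by
  have h := Chebyshev.theta_le_log4_mul_x (x := (n : ℝ)) (by positivity)
  rw [Chebyshev.theta_eq_sum_primesLE_log] at h
  exact h

lemma mert_two (p : ℕ) (hp : p.Prime) :
    ∑ q ∈ Nat.primesBelow p, Real.log ((q : ℝ) + 1) / q ≤ 6 * Real.log p := by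
  have hp2 : (2 : ℝ) ≤ p := by exact_mod_cast hp.two_le
  obtain ⟨n, rfl⟩ : ∃ n, p = n + 1 := ⟨p - 1, by have := hp.two_le; omega⟩
  have hn : 1 ≤ n := by have := hp.two_le; omega
  have hn0 : (0 : ℝ) < n := by exact_mod_cast hn
  have h1 := mert_fact n
  have h2 := mert_theta n
  have h3 : ∑ q ∈ Nat.primesBelow (n + 1), ((n : ℝ) / q - 1) * Real.log q ≤
      ∑ q ∈ Nat.primesBelow (n + 1), ((n / q : ℕ) : ℝ) * Real.log q := by
    apply Finset.sum_le_sum
    intro q hq
    have hq2 : (2 : ℝ) ≤ (q : ℝ) := by exact_mod_cast Nat.two_le_of_mem_primesBelow hq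
    apply mul_le_mul_of_nonneg_right _ (Real.log_nonneg (by linarith))
    have h4 : (n : ℝ) / q < ((n / q : ℕ) : ℝ) + 1 := by
      rw [div_lt_iff₀ (by linarith)]
      have : n < (n / q + 1) * q := by
        have := Nat.div_add_mod n q
        have h5 := Nat.mod_lt n (show q > 0 from (Nat.prime_of_mem_primesBelow hq).pos)
        nlinarith
      exact_mod_cast this
    linarith
  have h4 : ∑ q ∈ Nat.primesBelow (n + 1), ((n : ℝ) / q - 1) * Real.log q =
      n * (∑ q ∈ Nat.primesBelow (n + 1), Real.log q / q) -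
        ∑ q ∈ Nat.primesBelow (n + 1), Real.log q := by
    rw [Finset.mul_sum, ← Finset.sum_sub_distrib]
    apply Finset.sum_congr rfl
    intro q _
    ring
  have h5 : n * (∑ q ∈ Nat.primesBelow (n + 1), Real.log q / q) ≤
      n * (Real.log n + Real.log 4) := by
    nlinarith
  have h6 : (∑ q ∈ Nat.primesBelow (n + 1), Real.log q / q) ≤ Real.log n + Real.log 4 :=
    le_of_mul_le_mul_left h5 hn0
  have h7 : Real.log n ≤ Real.log ((n + 1 : ℕ) : ℝ) :=
    Real.log_le_log hn0 (by push_cast; linarith)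
  have h8 : Real.log 4 ≤ 2 * Real.log ((n + 1 : ℕ) : ℝ) := by
    have : Real.log 4 = 2 * Real.log 2 := by
      rw [show (4 : ℝ) = 2 ^ 2 by norm_num, Real.log_pow]
      norm_num
    rw [this]
    have := Real.log_le_log (by norm_num : (0 : ℝ) < 2) hp2
    linarith
  have h9 : ∑ q ∈ Nat.primesBelow (n + 1), Real.log ((q : ℝ) + 1) / q ≤
      2 * ∑ q ∈ Nat.primesBelow (n + 1), Real.log q / q := by
    rw [Finset.mul_sum]
    apply Finset.sum_le_sum
    intro q hq
    have hq2 : (2 : ℝ) ≤ (q : ℝ) := by exact_mod_cast Nat.two_le_of_mem_primesBelow hq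
    have h10 : Real.log ((q : ℝ) + 1) ≤ 2 * Real.log q := by
      have : 2 * Real.log (q : ℝ) = Real.log ((q : ℝ) ^ 2) := by
        rw [Real.log_pow]; norm_num
      rw [this]
      exact Real.log_le_log (by linarith) (by nlinarith)
    rw [← mul_div_assoc]
    exact div_le_div_of_nonneg_right h10 (by linarith)
  linarith

theorem st_MERT : ST_MERT := by
  refine ⟨6, by norm_num, fun p hp => ⟨?_, mert_two p hp⟩⟩
  have hp2 : (2 : ℝ) ≤ p := by exact_mod_cast hp.two_le
  have hlog : 0 < Real.log p := Real.log_pos (by linarith)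
  refine (mert_one p hp).trans ?_
  exact div_le_div_of_nonneg_right (by norm_num) hlog.le

end Pool.Agent.Helper96.MP
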